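import Mathlib

/-!
# Differences divisible by squares of primes, second moment bound

`S` is a set of integers in `[0, N]` with at least `4 Q` elements and `B` a set of numbers in
`(Q, 2 Q]` such that elements of `S` congruent modulo `p ∈ B` are congruent modulo `p ^ 2`.  Then
`#B ^ 2 * #S ≤ 256 * t ^ 2 * N`, where `t` bounds the number of divisors of the integers up to `N`.
-/

set_option autoImplicit false

open Finset

namespace Pool.Agent.Helper25.FQ

/-- The `p ∈ B` such that `v + w * p ^ 2 ∈ S`, for `x = (v, w)`. -/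
def F (S B : Finset ℕ) (x : ℕ × ℕ) : Finset ℕ := B.filter fun p => x.1 + x.2 * p ^ 2 ∈ S

theorem pairs_le {N Q p : ℕ} (S : Finset ℕ) (hN : ∀ u ∈ S, u ≤ N) (hQ : 0 < Q)
    (hp : Q < p) (hp2 : p ≤ 2 * Q)
    (hbad : ∀ u ∈ S, ∀ v ∈ S, (p : ℤ) ∣ (u : ℤ) - v → (p : ℤ) ^ 2 ∣ (u : ℤ) - v)
    (hS : 4 * Q ≤ S.card) :
    S.card ^ 2 ≤ 8 * Q * ((S ×ˢ Icc 1 (N / Q ^ 2)).filter
      fun x => x.1 + x.2 * p ^ 2 ∈ S).card := by
  set E := (S ×ˢ Icc 1 (N / Q ^ 2)).filter fun x => x.1 + x.2 * p ^ 2 ∈ S with hE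
  have hp0 : 0 < p := by omega
  -- pairs congruent mod p
  set P := (S ×ˢ S).filter fun x => x.1 % p = x.2 % p with hP
  have h1 : S.card ^ 2 ≤ p * P.card := by
    have h2 : ∑ r ∈ range p, (S.filter fun u => u % p = r).card = S.card := by
      rw [← Finset.card_eq_sum_card_fiberwise]
      intro u _
      simpa using Nat.mod_lt u hp0
    have h3 : ∑ r ∈ range p, (S.filter fun u => u % p = r).card ^ 2 = P.card := by
      have h4 : P.card = ∑ r ∈ range p, (P.filter fun x => x.1 % p = r).card := by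
        rw [← Finset.card_eq_sum_card_fiberwise]
        intro u _
        simpa using Nat.mod_lt u.1 hp0
      rw [h4]
      refine Finset.sum_congr rfl fun r _ => ?_
      rw [sq, ← Finset.card_product]
      congr 1
      ext ⟨a, b⟩
      simp only [hP, mem_product, mem_filter]
      constructor
      · rintro ⟨⟨h5, h6⟩, h7, h8⟩
        exact ⟨⟨⟨h5, h7⟩, h6.trans h8.symm⟩, h6⟩
      · rintro ⟨⟨⟨h5, h6⟩, h7⟩, h8⟩
        exact ⟨⟨h5, h8⟩, h6, h7.symm.trans h8⟩
    have h5 := sq_sum_le_card_mul_sum_sq (s := range p)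
      (f := fun r => (S.filter fun u => u % p = r).card)
    rw [h2, h3, card_range] at h5
    exact h5
  have h2 : P.card ≤ S.card + 2 * E.card := by
    have key : ∀ u ∈ S, ∀ v ∈ S, v < u → u % p = v % p →
        ∃ w, (v, w) ∈ E ∧ v + w * p ^ 2 = u := by
      intro u hu v hv hvu huv
      have h3 : (p : ℤ) ∣ (u : ℤ) - v := by
        have : (v : ℤ) ≡ u [ZMOD p] := by
          have := (Int.natCast_modEq_iff (n := p)).2 (show v ≡ u [MOD p] from huv.symm)
          exact this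
        exact this.dvd
      obtain ⟨w, hw⟩ := hbad u hu v hv h3
      have hp2' : (0 : ℤ) < (p : ℤ) ^ 2 := by positivity
      have hw0 : 0 < w := by
        have h4 : (0 : ℤ) < (u : ℤ) - v := by
          have : (v : ℤ) < u := by exact_mod_cast hvu
          linarith
        rw [hw] at h4
        exact (mul_pos_iff_of_pos_left hp2').1 h4
      obtain ⟨w', rfl⟩ : ∃ w' : ℕ, w = w' := ⟨w.toNat, by omega⟩
      have h5 : v + w' * p ^ 2 = u := by
        have : (v : ℤ) + w' * (p : ℤ) ^ 2 = u := by linarith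
        exact_mod_cast this
      refine ⟨w', ?_, h5⟩
      simp only [hE, mem_filter, mem_product, mem_Icc]
      refine ⟨⟨hv, by omega, ?_⟩, by rw [h5]; exact hu⟩
      rw [Nat.le_div_iff_mul_le (by positivity)]
      have h6 : w' * Q ^ 2 ≤ w' * p ^ 2 := Nat.mul_le_mul_left _ (Nat.pow_le_pow_left hp.le 2)
      have := hN u hu
      omega
    have hsub : P ⊆ (S.image fun u => (u, u)) ∪ (E.image fun x => (x.1 + x.2 * p ^ 2, x.1)) ∪
        (E.image fun x => (x.1, x.1 + x.2 * p ^ 2)) := by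
      rintro ⟨u, v⟩ huv
      simp only [hP, mem_filter, mem_product] at huv
      obtain ⟨⟨hu, hv⟩, h⟩ := huv
      simp only [mem_union, mem_image]
      rcases lt_trichotomy u v with h' | h' | h'
      · right
        obtain ⟨w, hw, hw'⟩ := key v hv u hu h' h.symm
        exact ⟨_, hw, by simp [hw']⟩
      · left; left
        exact ⟨u, hu, by simp [h']⟩
      · left; right
        obtain ⟨w, hw, hw'⟩ := key u hu v hv h' h
        exact ⟨_, hw, by simp [hw']⟩
    have h10 := (card_le_card hsub).trans (card_union_le _ _)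
    have h11 := card_union_le (S.image fun u => (u, u))
      (E.image fun x => (x.1 + x.2 * p ^ 2, x.1))
    have h12 : (S.image fun u => (u, u)).card ≤ S.card := card_image_le
    have h13 : (E.image fun x => (x.1 + x.2 * p ^ 2, x.1)).card ≤ E.card := card_image_le
    have h14 : (E.image fun x => (x.1, x.1 + x.2 * p ^ 2)).card ≤ E.card := card_image_le
    omega
  have h3 : 2 * p ≤ S.card := by omega
  have h4 : p * P.card ≤ p * (S.card + 2 * E.card) := Nat.mul_le_mul_left _ h2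
  have h5 : 2 * p * S.card ≤ S.card ^ 2 := by rw [sq]; exact Nat.mul_le_mul_right _ h3
  have h6 : p * E.card ≤ 2 * Q * E.card := Nat.mul_le_mul_right _ hp2
  nlinarith

theorem fibre_le {N W t : ℕ} (S B : Finset ℕ) (hN : ∀ u ∈ S, u ≤ N)
    (ht : ∀ m : ℕ, 0 < m → m ≤ N → m.divisors.card ≤ t) :
    ∑ x ∈ S ×ˢ Icc 1 W, (F S B x).offDiag.card ≤ t ^ 2 * S.card ^ 2 := by
  classical
  set Z := (S ×ˢ Icc 1 W).sigma fun x => (F S B x).offDiag with hZ
  have hZc : Z.card = ∑ x ∈ S ×ˢ Icc 1 W, (F S B x).offDiag.card := card_sigma _ _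
  rw [← hZc]
  let g : (Σ _ : ℕ × ℕ, ℕ × ℕ) → ℕ × ℕ := fun z =>
    (z.1.1 + z.1.2 * z.2.1 ^ 2, z.1.1 + z.1.2 * z.2.2 ^ 2)
  have hmem : ∀ z ∈ Z, z.1.1 ∈ S ∧ 1 ≤ z.1.2 ∧ z.2.1 ≠ z.2.2 ∧
      z.1.1 + z.1.2 * z.2.1 ^ 2 ∈ S ∧ z.1.1 + z.1.2 * z.2.2 ^ 2 ∈ S := by
    rintro ⟨⟨v, w⟩, p, p'⟩ hz
    simp only [hZ, mem_sigma, mem_product, mem_Icc, mem_offDiag, F, mem_filter] at hz
    obtain ⟨⟨h1, h2, _⟩, ⟨_, h3⟩, ⟨_, h4⟩, h5⟩ := hz
    exact ⟨h1, h2, h5, h3, h4⟩
  have hg : ∀ z ∈ Z, g z ∈ S ×ˢ S := by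
    intro z hz
    obtain ⟨_, _, _, h3, h4⟩ := hmem z hz
    exact mem_product.2 ⟨h3, h4⟩
  have hfib : ∀ y ∈ S ×ˢ S, (Z.filter fun z => g z = y).card ≤ t ^ 2 := by
    rintro ⟨u, u'⟩ huu
    rw [mem_product] at huu
    obtain ⟨hu, hu'⟩ := huu
    simp only at hu hu'
    -- the fundamental identity
    have hid : ∀ z ∈ Z.filter fun z => g z = (u, u'),
        (u : ℤ) - u' = z.1.2 * (((z.2.1 : ℤ) - z.2.2) * ((z.2.1 : ℤ) + z.2.2)) ∧
        z.1.1 + z.1.2 * z.2.1 ^ 2 = u ∧ 1 ≤ z.1.2 ∧ z.2.1 ≠ z.2.2 := by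
      intro z hz
      rw [mem_filter] at hz
      obtain ⟨hz, hgz⟩ := hz
      obtain ⟨_, h2, h3, _, _⟩ := hmem z hz
      simp only [g, Prod.mk.injEq] at hgz
      refine ⟨?_, hgz.1, h2, h3⟩
      rw [← hgz.1, ← hgz.2]
      push_cast
      ring
    by_cases hne : u = u'
    · have : Z.filter (fun z => g z = (u, u')) = ∅ := by
        rw [Finset.eq_empty_iff_forall_notMem]
        intro z hz
        obtain ⟨h1, _, h3, h4⟩ := hid z hz
        rw [hne, sub_self] at h1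
        have h5 : (z.1.2 : ℤ) ≠ 0 := by
          have : z.1.2 ≠ 0 := by omega
          exact_mod_cast this
        have h6 : (z.2.1 : ℤ) - z.2.2 ≠ 0 := by
          rw [sub_ne_zero]; exact_mod_cast h4
        have h7 : (z.2.1 : ℤ) + z.2.2 ≠ 0 := by
          have : z.2.1 + z.2.2 ≠ 0 := by omega
          exact_mod_cast this
        exact (mul_ne_zero h5 (mul_ne_zero h6 h7)) h1.symm
      rw [this]; simp
    · set D := ((u : ℤ) - u').natAbs with hD
      have hD0 : 0 < D := by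
        rw [hD, Int.natAbs_pos, sub_ne_zero]; exact_mod_cast hne
      have hDN : D ≤ N := by
        have h1 := hN u hu
        have h2 := hN u' hu'
        omega
      have hcard : (Z.filter fun z => g z = (u, u')).card ≤ (D.divisors ×ˢ D.divisors).card := by
        refine card_le_card_of_injOn (fun z => (z.1.2, z.2.1 + z.2.2)) ?_ ?_
        · intro z hz
          obtain ⟨h1, _, h3, h4⟩ := hid z (by simpa using hz)
          have h5 : D = z.1.2 * ((((z.2.1 : ℤ) - z.2.2).natAbs) * (z.2.1 + z.2.2)) := by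
            rw [hD, h1, Int.natAbs_mul, Int.natAbs_mul]
            congr 2
          simp only [coe_product, Set.mem_prod, mem_coe, Nat.mem_divisors]
          refine ⟨⟨?_, hD0.ne'⟩, ?_, hD0.ne'⟩
          · rw [h5]; exact dvd_mul_right _ _
          · rw [h5]; exact Dvd.dvd.mul_left (dvd_mul_left _ _) _
        · rintro ⟨⟨v, w⟩, p, p'⟩ hz ⟨⟨v1, w1⟩, p1, p1'⟩ hz1 heq
          obtain ⟨h1, h2, h3, h4⟩ := hid _ (by simpa using hz)
          obtain ⟨h1', h2', h3', h4'⟩ := hid _ (by simpa using hz1)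
          simp only at h1 h2 h3 h4 h1' h2' h3' h4'
          simp only [Prod.mk.injEq] at heq
          obtain ⟨rfl, hs⟩ := heq
          have hs' : (p : ℤ) + p' = (p1 : ℤ) + p1' := by exact_mod_cast hs
          have hw : (w : ℤ) ≠ 0 := by
            have : w ≠ 0 := by omega
            exact_mod_cast this
          have hsum : (p1 : ℤ) + p1' ≠ 0 := by
            have : p1 + p1' ≠ 0 := by omega
            exact_mod_cast this
          have h5 : (p : ℤ) - p' = (p1 : ℤ) - p1' := by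
            rw [hs'] at h1
            have h6 := h1.symm.trans h1'
            have h7 := mul_left_cancel₀ hw h6
            exact mul_right_cancel₀ hsum h7
          have h6 : p = p1 := by
            have : (p : ℤ) = p1 := by linarith
            exact_mod_cast this
          have h7 : p' = p1' := by
            have : (p' : ℤ) = p1' := by linarith
            exact_mod_cast this
          subst h6 h7
          have h8 : v = v1 := by omega
          subst h8
          rfl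
      refine hcard.trans ?_
      rw [card_product, sq]
      exact Nat.mul_le_mul (ht D hD0 hDN) (ht D hD0 hDN)
  have := card_le_mul_card_image_of_maps_to hg (t ^ 2) hfib
  rw [card_product, ← sq] at this
  exact this

theorem algebra {n s w T : ℝ} (hn0 : 0 ≤ n) (hs0 : 0 ≤ s) (hW0 : 0 ≤ w) (hT : 1 ≤ T)
    (hws : w ≤ s) (h : n ^ 2 ≤ s * w * (n + T ^ 2 * s ^ 2)) :
    n ^ 2 ≤ 4 * (s ^ 3 * w * T ^ 2) := by
  by_contra hcon
  push Not at hcon
  have h5 : 3 * n ^ 2 ≤ 4 * (s * w * n) := by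
    have : s * w * (n + T ^ 2 * s ^ 2) = s * w * n + s ^ 3 * w * T ^ 2 := by ring
    linarith
  have hnpos : 0 < n := by
    rcases hn0.lt_or_eq with h | h
    · exact h
    · rw [← h] at hcon
      have : 0 ≤ 4 * (s ^ 3 * w * T ^ 2) := by positivity
      have : (0 : ℝ) ^ 2 = 0 := by norm_num
      linarith
  have h6 : 3 * n ≤ 4 * (s * w) := by
    have : (3 * n) * n ≤ (4 * (s * w)) * n := by
      have h7 : (3 * n) * n = 3 * n ^ 2 := by ring
      have h8 : (4 * (s * w)) * n = 4 * (s * w * n) := by ring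
      linarith
    exact le_of_mul_le_mul_right this hnpos
  have h7 : (3 * n) ^ 2 ≤ (4 * (s * w)) ^ 2 := pow_le_pow_left₀ (by positivity) h6 2
  have h8 : s ^ 2 * w * w ≤ s ^ 2 * w * s := mul_le_mul_of_nonneg_left hws (by positivity)
  have h9 : s ^ 3 * w * 1 ≤ s ^ 3 * w * T ^ 2 :=
    mul_le_mul_of_nonneg_left (by nlinarith) (by positivity)
  have h10 : (3 * n) ^ 2 = 9 * n ^ 2 := by ring
  have h11 : (4 * (s * w)) ^ 2 = 16 * (s ^ 2 * w * w) := by ring
  have h12 : s ^ 2 * w * s = s ^ 3 * w * 1 := by ring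
  have h13 : 0 ≤ s ^ 3 * w * T ^ 2 := by positivity
  linarith

theorem finish {b s Q n t W N : ℕ} (hWN : W * Q ^ 2 ≤ N) (h1 : b * s ^ 2 ≤ 8 * Q * n)
    (h4 : n ^ 2 ≤ 4 * (s ^ 3 * W * t ^ 2)) : b ^ 2 * s ≤ 256 * t ^ 2 * N := by
  rcases Nat.eq_zero_or_pos s with h5 | h5
  · rw [h5, mul_zero]; exact Nat.zero_le _
  have h6 : (b * s ^ 2) ^ 2 ≤ (8 * Q * n) ^ 2 := Nat.pow_le_pow_left h1 2
  have h7 : (8 * Q * n) ^ 2 ≤ 256 * t ^ 2 * N * s ^ 3 := by
    calc (8 * Q * n) ^ 2 = 64 * Q ^ 2 * n ^ 2 := by ring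
      _ ≤ 64 * Q ^ 2 * (4 * (s ^ 3 * W * t ^ 2)) := Nat.mul_le_mul_left _ h4
      _ = (256 * t ^ 2 * s ^ 3) * (W * Q ^ 2) := by ring
      _ ≤ (256 * t ^ 2 * s ^ 3) * N := Nat.mul_le_mul_left _ hWN
      _ = 256 * t ^ 2 * N * s ^ 3 := by ring
  have h8 : (b ^ 2 * s) * s ^ 3 ≤ (256 * t ^ 2 * N) * s ^ 3 := by
    calc (b ^ 2 * s) * s ^ 3 = (b * s ^ 2) ^ 2 := by ring
      _ ≤ _ := h6.trans h7
  exact Nat.le_of_mul_le_mul_right h8 (Nat.pow_pos h5)

theorem nat_algebra {n s W t : ℕ} (ht1 : 1 ≤ t) (h3 : W ≤ s)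
    (h2 : n ^ 2 ≤ s * W * (n + t ^ 2 * s ^ 2)) : n ^ 2 ≤ 4 * (s ^ 3 * W * t ^ 2) := by
  have hR2 : (n : ℝ) ^ 2 ≤ s * W * (n + (t : ℝ) ^ 2 * s ^ 2) := by exact_mod_cast h2
  have hR3 : (W : ℝ) ≤ s := by exact_mod_cast h3
  have ht' : (1 : ℝ) ≤ t := by exact_mod_cast ht1
  have := algebra (Nat.cast_nonneg n) (Nat.cast_nonneg s) (Nat.cast_nonneg W) ht' hR3 hR2
  exact_mod_cast this

theorem small_case {b s Q t W N : ℕ} (ht1 : 1 ≤ t) (hWN : W * Q ^ 2 ≤ N) (hBQ : b ≤ Q)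
    (h3 : s < W) : b ^ 2 * s ≤ 256 * t ^ 2 * N := by
  have h4 : 1 ≤ 256 * t ^ 2 := by nlinarith
  have h5 : b ^ 2 * s ≤ Q ^ 2 * W := Nat.mul_le_mul (Nat.pow_le_pow_left hBQ 2) h3.le
  have h6 : 1 * N ≤ 256 * t ^ 2 * N := Nat.mul_le_mul_right _ h4
  rw [one_mul] at h6
  rw [mul_comm (Q ^ 2)] at h5
  exact (h5.trans hWN).trans h6

theorem core {N Q t : ℕ} (S B : Finset ℕ) (hQ : 0 < Q) (ht1 : 1 ≤ t)
    (hN : ∀ u ∈ S, u ≤ N) (hB : ∀ p ∈ B, Q < p ∧ p ≤ 2 * Q)
    (hbad : ∀ p ∈ B, ∀ u ∈ S, ∀ v ∈ S, (p : ℤ) ∣ (u : ℤ) - v → (p : ℤ) ^ 2 ∣ (u : ℤ) - v)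
    (hS : 4 * Q ≤ S.card) (ht : ∀ m : ℕ, 0 < m → m ≤ N → m.divisors.card ≤ t) :
    B.card ^ 2 * S.card ≤ 256 * t ^ 2 * N := by
  set W := N / Q ^ 2 with hW
  have hWN : W * Q ^ 2 ≤ N := Nat.div_mul_le_self _ _
  set n := ∑ x ∈ S ×ˢ Icc 1 W, (F S B x).card with hn
  have hBQ : B.card ≤ Q := by
    have h1 : B ⊆ Ioc Q (2 * Q) := fun p hp => mem_Ioc.2 (hB p hp)
    have h2 := card_le_card h1
    rw [Nat.card_Ioc] at h2
    omega
  have h1 : B.card * S.card ^ 2 ≤ 8 * Q * n := by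
    have h2 : ∑ _p ∈ B, S.card ^ 2 ≤ ∑ p ∈ B, 8 * Q * ((S ×ˢ Icc 1 W).filter
        fun x => x.1 + x.2 * p ^ 2 ∈ S).card :=
      sum_le_sum fun p hp => pairs_le S hN hQ (hB p hp).1 (hB p hp).2 (hbad p hp) hS
    rw [sum_const, smul_eq_mul, ← mul_sum] at h2
    refine h2.trans (le_of_eq ?_)
    congr 1
    rw [hn]
    simp only [F, card_filter]
    rw [sum_comm]
  have h2 : n ^ 2 ≤ S.card * W * (n + t ^ 2 * S.card ^ 2) := by
    have h3 := sq_sum_le_card_mul_sum_sq (s := S ×ˢ Icc 1 W) (f := fun x => (F S B x).card)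
    have h4 : ∑ x ∈ S ×ˢ Icc 1 W, (F S B x).card ^ 2 ≤ n + t ^ 2 * S.card ^ 2 := by
      have h5 : ∀ x ∈ S ×ˢ Icc 1 W, (F S B x).card ^ 2 =
          (F S B x).card + (F S B x).offDiag.card := by
        intro x _
        rw [offDiag_card, sq]
        have : (F S B x).card ≤ (F S B x).card * (F S B x).card := Nat.le_mul_self _
        omega
      rw [sum_congr rfl h5, sum_add_distrib]
      exact Nat.add_le_add_left (fibre_le S B hN ht) _
    rw [card_product, Nat.card_Icc, Nat.add_sub_cancel] at h3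
    exact h3.trans (Nat.mul_le_mul_left _ h4)
  rcases le_or_gt W S.card with h3 | h3
  · -- main case
    exact finish hWN h1 (nat_algebra ht1 h3 h2)
  · exact small_case ht1 hWN hBQ h3

end Pool.Agent.Helper25.FQ
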