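import Mathlib

/-!
# Choice of the number of prime factors
-/

set_option autoImplicit false

open Real Filter

namespace Pool.Agent.Helper25.FQ

theorem log_le_div (z : ℝ) (hz : 0 < z) : log z ≤ z / 16 + 1.78 := by
  have h1 : log (z / 16) ≤ z / 16 - 1 := log_le_sub_one_of_pos (by positivity)
  rw [log_div hz.ne' (by norm_num)] at h1
  have h2 : log 16 = 4 * log 2 := by
    rw [show (16 : ℝ) = 2 ^ 4 by norm_num, log_pow]; norm_num
  have h3 := log_two_lt_d9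
  rw [h2] at h1
  linarith

theorem pi_lower {y : ℝ} (hy : 21 ≤ y) : y / (2 * log y) ≤ (Nat.primeCounting ⌊y⌋₊ : ℝ) := by
  refine le_trans ?_ (Chebyshev.pi_ge' (by linarith))
  have hl : 0 < log y := log_pos (by linarith)
  rw [div_le_div_iff₀ (by positivity) hl]
  have h1 := log_le_div (y + 2) (by linarith)
  have h2 := log_two_gt_d9
  have h3 : y ≤ 2 * ((y - 1) * log 2 - log (y + 2)) := by nlinarith
  nlinarith

theorem choose_lower {M n : ℕ} {r : ℝ} (hn : 0 < n) (hr : 0 ≤ r) (h : n * (1 + r) ≤ M) :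
    r ^ n ≤ (M.choose n : ℝ) := by
  have hnR : (0 : ℝ) < n := by exact_mod_cast hn
  have hnM : n ≤ M := by
    have : (n : ℝ) ≤ M := by nlinarith
    exact_mod_cast this
  refine le_trans ?_ (Nat.pow_le_choose (α := ℝ) n M)
  rw [le_div_iff₀ (by positivity)]
  have h1 : ((n.factorial : ℕ) : ℝ) ≤ (n : ℝ) ^ n := by exact_mod_cast Nat.factorial_le_pow n
  have h2 : n * r ≤ ((M + 1 - n : ℕ) : ℝ) := by
    rw [Nat.cast_sub (by omega)]
    push_cast
    nlinarith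
  calc r ^ n * (n.factorial : ℝ) ≤ r ^ n * (n : ℝ) ^ n := by gcongr
    _ = (n * r) ^ n := by rw [mul_pow]; ring
    _ ≤ _ := pow_le_pow_left₀ (by positivity) h2 n

theorem params {κ η : ℝ} (hκ : 1 < κ) (hη : 0 < η) : ∃ L0 : ℝ, 0 < L0 ∧ ∀ L ≥ L0, ∃ n : ℕ,
    ∃ r : ℝ, 0 < r ∧ r ^ n ≤ ((Nat.primeCounting ⌊L ^ κ⌋₊).choose n : ℝ) ∧
      4 * exp L ≤ r ^ n ∧ (L ^ κ) ^ n ≤ exp ((1 + 2 * η) / (κ - 1) * L) * r ^ n ∧
      (L ^ κ) ^ n ≤ exp (κ * (1 + 2 * η) / (κ - 1) * L) := by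
  have hk : 0 < κ - 1 := by linarith
  obtain ⟨c, hc⟩ : ∃ c, c = (κ - 1) / (8 * κ * (1 + η)) := ⟨_, rfl⟩
  have hc0 : 0 < c := by rw [hc]; positivity
  obtain ⟨D, hD⟩ : ∃ D, D = |log c| := ⟨_, rfl⟩
  have hD0 : 0 ≤ D := by rw [hD]; exact abs_nonneg _
  have hlogc : -D ≤ log c := by rw [hD]; exact neg_abs_le _
  have hlogc' : log c ≤ D := by rw [hD]; exact le_abs_self _
  -- eventual conditions
  have e1 : ∀ᶠ L : ℝ in atTop, 21 ≤ L ^ κ :=
    (tendsto_rpow_atTop (by linarith)).eventually_ge_atTop _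
  have e2 : ∀ᶠ L : ℝ in atTop, 1 ≤ c * L ^ (κ - 1) :=
    ((tendsto_rpow_atTop hk).const_mul_atTop hc0).eventually_ge_atTop _
  have e3 : ∀ᶠ L : ℝ in atTop, 1 + 2 * (1 + η) * D / η + 2 * (1 + η) * D / ((κ - 1) * η) ≤ log L :=
    tendsto_log_atTop.eventually_ge_atTop _
  obtain ⟨g, hg⟩ : ∃ g, g = min (η / (2 * (κ - 1))) ((1 + η) / (κ - 1)) := ⟨_, rfl⟩
  have hg0 : 0 < g := by rw [hg]; positivity
  have e4 : ∀ᶠ L : ℝ in atTop, log L + D ≤ g * L := by
    have h1 := isLittleO_log_id_atTop.bound (show (0 : ℝ) < g / 2 by positivity)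
    have h2 : ∀ᶠ L : ℝ in atTop, D ≤ g / 2 * L :=
      (tendsto_id.const_mul_atTop (show (0 : ℝ) < g / 2 by positivity)).eventually_ge_atTop _
    filter_upwards [h1, h2, eventually_ge_atTop 1] with L h1 h2 h3
    rw [norm_eq_abs, norm_eq_abs, abs_of_nonneg (log_nonneg h3), id, abs_of_nonneg (by linarith)]
      at h1
    linarith
  have e5 : ∀ᶠ L : ℝ in atTop, 4 / η ≤ L := eventually_ge_atTop _
  obtain ⟨L0, hL0⟩ := eventually_atTop.1 (((e1.and e2).and (e3.and e4)).and e5)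
  refine ⟨max L0 1, by positivity, fun L hL => ?_⟩
  obtain ⟨⟨⟨h1, h2⟩, h3, h4⟩, h5⟩ := hL0 L ((le_max_left _ _).trans hL)
  have hL1 : 1 ≤ L := (le_max_right _ _).trans hL
  have hL0' : 0 < L := by linarith
  obtain ⟨ℓ, hℓ⟩ : ∃ ℓ, ℓ = log L := ⟨_, rfl⟩
  rw [← hℓ] at h3 h4
  have t1 : 0 ≤ 2 * (1 + η) * D / η := by positivity
  have t2 : 0 ≤ 2 * (1 + η) * D / ((κ - 1) * η) := by positivity
  have hℓ1 : 1 ≤ ℓ := by linarith
  have hℓ0 : 0 < ℓ := by linarith
  have h3a : (1 + η) * D ≤ η / 2 * ℓ := by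
    have : 2 * (1 + η) * D / η ≤ ℓ := by linarith
    rw [div_le_iff₀ hη] at this
    linarith
  have h3b : (1 + η) * D ≤ η / 2 * ((κ - 1) * ℓ) := by
    have : 2 * (1 + η) * D / ((κ - 1) * η) ≤ ℓ := by linarith
    rw [div_le_iff₀ (by positivity)] at this
    linarith
  have hg1 : g ≤ η / (2 * (κ - 1)) := by rw [hg]; exact min_le_left _ _
  have hg2 : g ≤ (1 + η) / (κ - 1) := by rw [hg]; exact min_le_right _ _
  have h4a : ℓ + D ≤ η / (2 * (κ - 1)) * L := h4.trans (by gcongr)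
  have h4b : ℓ + D ≤ (1 + η) / (κ - 1) * L := h4.trans (by gcongr)
  obtain ⟨x, hx⟩ : ∃ x, x = (1 + η) * L / ((κ - 1) * ℓ) := ⟨_, rfl⟩
  have hxl : x * ℓ = (1 + η) / (κ - 1) * L := by
    rw [hx]; field_simp
  have hx1 : 1 ≤ x := by
    have : 1 * ℓ ≤ x * ℓ := by rw [hxl]; linarith
    exact le_of_mul_le_mul_right this hℓ0
  have hx0 : 0 < x := by linarith
  obtain ⟨n, hn⟩ : ∃ n, n = ⌈x⌉₊ := ⟨_, rfl⟩
  have hn1 : x ≤ n := by rw [hn]; exact Nat.le_ceil x
  have hn2 : (n : ℝ) ≤ x + 1 := by rw [hn]; exact (Nat.ceil_lt_add_one hx0.le).le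
  have hnpos : 0 < n := by rw [hn]; exact Nat.ceil_pos.2 hx0
  obtain ⟨r, hr⟩ : ∃ r, r = c * L ^ (κ - 1) := ⟨_, rfl⟩
  rw [← hr] at h2
  have hr0 : 0 < r := by linarith
  have hlogr : log r = log c + (κ - 1) * ℓ := by
    rw [hr, log_mul hc0.ne' (by positivity), log_rpow hL0', hℓ]
  have hrL : r * (L / c) = L ^ κ := by
    rw [hr, show κ = (κ - 1) + 1 by ring, rpow_add_one hL0'.ne']
    field_simp
    ring_nf
  have hrn : r ^ n = exp (n * log r) := by
    rw [mul_comm, exp_mul, exp_log hr0, rpow_natCast]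
  have hxD : x * D ≤ η / 2 * (1 / (κ - 1) * L) := by
    have : (x * D) * ℓ ≤ (η / 2 * (1 / (κ - 1) * L)) * ℓ := by
      calc (x * D) * ℓ = (x * ℓ) * D := by ring
        _ = (1 / (κ - 1) * L) * ((1 + η) * D) := by rw [hxl]; ring
        _ ≤ (1 / (κ - 1) * L) * (η / 2 * ℓ) := by gcongr
        _ = _ := by ring
    exact le_of_mul_le_mul_right this hℓ0
  have hxD2 : x * D ≤ η / 2 * L := by
    have : (x * D) * ℓ ≤ (η / 2 * L) * ℓ := by
      calc (x * D) * ℓ = (x * ℓ) * D := by ring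
        _ = (1 / (κ - 1) * L) * ((1 + η) * D) := by rw [hxl]; ring
        _ ≤ (1 / (κ - 1) * L) * (η / 2 * ((κ - 1) * ℓ)) := by gcongr
        _ = _ := by field_simp
    exact le_of_mul_le_mul_right this hℓ0
  refine ⟨n, r, hr0, ?_, ?_, ?_, ?_⟩
  · refine choose_lower hnpos hr0.le (le_trans ?_ (pi_lower h1))
    rw [log_rpow hL0', ← hℓ]
    have h6 : n * (1 + r) ≤ (2 * x) * (2 * r) := by
      have : (n : ℝ) ≤ 2 * x := by linarith
      gcongr
      linarith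
    refine h6.trans (le_of_eq ?_)
    rw [← hrL, hx]
    have h7 : (1 + η) * c = (κ - 1) / (8 * κ) := by
      rw [hc]; field_simp
    have h8 : (2 * ((1 + η) * L / ((κ - 1) * ℓ))) * (2 * r) =
        4 * ((1 + η) * c) * (r * (L / c)) / ((κ - 1) * ℓ) := by
      field_simp
      ring
    rw [h8, h7]
    field_simp
    ring
  · rw [hrn, show (4 : ℝ) = exp (log 4) by rw [exp_log (by norm_num)], ← exp_add]
    refine exp_le_exp.2 ?_
    have h6 : log 4 ≤ 2 := by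
      have : log 4 = 2 * log 2 := by rw [show (4 : ℝ) = 2 ^ 2 by norm_num, log_pow]; norm_num
      rw [this]
      have := log_two_lt_d9
      linarith
    have h7 : 2 ≤ η / 2 * L := by
      rw [div_le_iff₀ hη] at h5
      linarith
    have h8 : (κ - 1) * (x * ℓ) = (1 + η) * L := by rw [hxl]; field_simp
    have h9 : 0 ≤ log r := log_nonneg h2
    have h10 : x * log r ≤ n * log r := mul_le_mul_of_nonneg_right hn1 h9
    have h11 : x * (-D) ≤ x * log c := mul_le_mul_of_nonneg_left hlogc hx0.le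
    have h12 : x * log r = x * log c + (κ - 1) * (x * ℓ) := by rw [hlogr]; ring
    linarith
  · rw [← hrL, mul_pow, mul_comm (r ^ n)]
    refine mul_le_mul_of_nonneg_right ?_ (by positivity)
    have h6 : (L / c) ^ n = exp (n * (ℓ - log c)) := by
      rw [hℓ, ← log_div hL0'.ne' hc0.ne', mul_comm, exp_mul, exp_log (by positivity), rpow_natCast]
    rw [h6]
    refine exp_le_exp.2 ?_
    have h7 : (n : ℝ) * (ℓ - log c) ≤ (x + 1) * (ℓ + D) := by
      have : ℓ - log c ≤ ℓ + D := by linarith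
      calc (n : ℝ) * (ℓ - log c) ≤ n * (ℓ + D) := by gcongr
        _ ≤ _ := by gcongr
    have h8 : (x + 1) * (ℓ + D) = x * ℓ + x * D + (ℓ + D) := by ring
    have h9 : (1 + 2 * η) / (κ - 1) * L = (1 + η) / (κ - 1) * L + η / 2 * (1 / (κ - 1) * L) +
        η / (2 * (κ - 1)) * L := by
      field_simp
      ring
    rw [h9]
    linarith
  · have h6 : (L ^ κ) ^ n = exp (n * (κ * ℓ)) := by
      rw [hℓ, ← log_rpow hL0', mul_comm, exp_mul, exp_log (by positivity), rpow_natCast]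
    rw [h6]
    refine exp_le_exp.2 ?_
    have h7 : (n : ℝ) * (κ * ℓ) ≤ (x + 1) * (κ * ℓ) := by gcongr
    have h8 : (x + 1) * (κ * ℓ) = κ * (x * ℓ) + κ * ℓ := by ring
    have h9 : κ * (1 + 2 * η) / (κ - 1) * L = κ * ((1 + η) / (κ - 1) * L) +
        κ * (η / (κ - 1) * L) := by
      field_simp
      ring
    have h10 : ℓ ≤ η / (κ - 1) * L := by
      have : η / (2 * (κ - 1)) * L ≤ η / (κ - 1) * L := by
        gcongr
        linarith
      linarith
    have h11 : κ * ℓ ≤ κ * (η / (κ - 1) * L) := by gcongr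
    rw [h9]
    rw [hxl] at h8
    linarith

end Pool.Agent.Helper25.FQ
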