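import Mathlib
import Pool.Agent.Helper25.FQ.Core
import Pool.Agent.Helper25.FQ.Params
import Pool.Agent.Helper91.KC.DivBound

/-!
# Fermat quotients: almost all primes
-/

set_option autoImplicit false

open Finset

namespace Pool.Agent.Helper25.FQ

/-- Products of `n` different primes up to `Y`. -/
def prods (Y n : ℕ) : Finset ℕ := ((Nat.primesLE Y).powersetCard n).image fun A => ∏ q ∈ A, q

theorem card_prods (Y n : ℕ) : (prods Y n).card = (Nat.primeCounting Y).choose n := by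
  rw [prods, card_image_of_injOn, card_powersetCard]
  · congr 1
    rw [Nat.primesLE, Nat.primesBelow_card_eq_primeCounting', Nat.primeCounting]
  · intro A hA B hB h
    rw [mem_coe, mem_powersetCard] at hA hB
    simp only at h
    rw [← Nat.primeFactors_prod (s := A) fun p hp => Nat.prime_of_mem_primesLE (hA.1 hp),
      ← Nat.primeFactors_prod (s := B) fun p hp => Nat.prime_of_mem_primesLE (hB.1 hp), h]

theorem le_of_mem_prods {Y n u : ℕ} (h : u ∈ prods Y n) : u ≤ Y ^ n := by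
  rw [prods, mem_image] at h
  obtain ⟨A, hA, rfl⟩ := h
  rw [mem_powersetCard] at hA
  rw [← hA.2]
  exact prod_le_pow_card _ _ _ fun q hq => Nat.le_of_mem_primesLE (hA.1 hq)

/-- `p ^ 2` divides `a ^ p - a` for all positive integers `a ≤ Y`. -/
def BadY (Y p : ℕ) : Prop := ∀ a : ℕ, 0 < a → a ≤ Y → (p : ℤ) ^ 2 ∣ (a : ℤ) ^ p - a

theorem bad_prods {Y n p u : ℕ} (h : BadY Y p) (hu : u ∈ prods Y n) :
    (p : ℤ) ^ 2 ∣ (u : ℤ) ^ p - u := by
  rw [prods, mem_image] at hu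
  obtain ⟨A, hA, rfl⟩ := hu
  rw [mem_powersetCard] at hA
  obtain ⟨hA, _⟩ := hA
  have key : ((∏ q ∈ A, (q : ℤ)) ^ p) ≡ (∏ q ∈ A, (q : ℤ)) [ZMOD (p : ℤ) ^ 2] := by
    rw [← prod_pow]
    refine Int.ModEq.prod fun q hq => ?_
    have hq' := hA hq
    exact (Int.modEq_iff_dvd.2 (h q (Nat.prime_of_mem_primesLE hq').pos
      (Nat.le_of_mem_primesLE hq'))).symm
  have := (Int.modEq_iff_dvd.1 key.symm)
  push_cast
  exact this

theorem bad_congr {p u v : ℕ} (hu : (p : ℤ) ^ 2 ∣ (u : ℤ) ^ p - u)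
    (hv : (p : ℤ) ^ 2 ∣ (v : ℤ) ^ p - v) (h : (p : ℤ) ∣ (u : ℤ) - v) :
    (p : ℤ) ^ 2 ∣ (u : ℤ) - v := by
  have h1 := dvd_sub_pow_of_dvd_sub (R := ℤ) (p := p) h 1
  rw [pow_one] at h1
  have h2 : (u : ℤ) - v = ((u : ℤ) ^ p - v ^ p) - ((u : ℤ) ^ p - u) + ((v : ℤ) ^ p - v) := by ring
  rw [h2]
  exact dvd_add (dvd_sub h1 hu) hv

theorem block {Y n Q t : ℕ} (hQ : 0 < Q) (ht1 : 1 ≤ t)
    (hS : 4 * Q ≤ (Nat.primeCounting Y).choose n)
    (ht : ∀ m : ℕ, 0 < m → m ≤ Y ^ n → m.divisors.card ≤ t) (B : Finset ℕ)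
    (hB : ∀ p ∈ B, Q < p ∧ p ≤ 2 * Q ∧ BadY Y p) :
    B.card ^ 2 * (Nat.primeCounting Y).choose n ≤ 256 * t ^ 2 * Y ^ n := by
  rw [← card_prods] at hS ⊢
  refine core (prods Y n) B hQ ht1 (fun u hu => le_of_mem_prods hu)
    (fun p hp => ⟨(hB p hp).1, (hB p hp).2.1⟩) ?_ hS ht
  intro p hp u hu v hv h
  exact bad_congr (bad_prods (hB p hp).2.2 hu) (bad_prods (hB p hp).2.2 hv) h

end Pool.Agent.Helper25.FQ
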