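import Mathlib
import Pool.Agent.Helper25.FQ.Main

/-!
# Fermat quotients: almost all primes, final count
-/

set_option autoImplicit false

open Finset

namespace Pool.Agent.Helper25.FQ

/-- `p ^ 2` divides `a ^ p - a` for all positive integers `a ≤ (log p) ^ κ`. -/
def Bad (κ : ℝ) (p : ℕ) : Prop :=
  ∀ a : ℕ, 0 < a → (a : ℝ) ≤ Real.log p ^ κ → (p : ℤ) ^ 2 ∣ (a : ℤ) ^ p - a

theorem exponents {κ ε : ℝ} (hκ : 1 < κ) (hε : 0 < ε) : ∃ η δ : ℝ, 0 < η ∧ 0 < δ ∧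
    δ * (κ * (1 + 2 * η) / (κ - 1)) + (1 + 2 * η) / (κ - 1) / 2 ≤ 1 / (2 * (κ - 1)) + ε := by
  have hk : 0 < κ - 1 := by linarith
  obtain ⟨a, ha⟩ : ∃ a, a = min 1 (2 * ((κ - 1) * ε) / 3) := ⟨_, rfl⟩
  have ha0 : 0 < a := by rw [ha]; positivity
  have ha1 : a ≤ 1 := by rw [ha]; exact min_le_left _ _
  have ha2 : a ≤ 2 * ((κ - 1) * ε) / 3 := by rw [ha]; exact min_le_right _ _
  refine ⟨a / 2, a / (2 * κ), by positivity, by positivity, ?_⟩
  have h1 : a / (2 * κ) * (κ * (1 + 2 * (a / 2)) / (κ - 1)) + (1 + 2 * (a / 2)) / (κ - 1) / 2 =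
      (1 + a) * (1 + a) / (2 * (κ - 1)) := by
    field_simp
    ring
  have h2 : 1 / (2 * (κ - 1)) + ε = (1 + 2 * ((κ - 1) * ε)) / (2 * (κ - 1)) := by
    field_simp
  rw [h1, h2]
  refine div_le_div_of_nonneg_right ?_ (by positivity)
  nlinarith

theorem dyadic {κ ε : ℝ} (hκ : 1 < κ) (hε : 0 < ε) : ∃ C : ℝ, 0 < C ∧ ∀ Q : ℕ, 0 < Q →
    ∀ B : Finset ℕ, (∀ p ∈ B, Q < p ∧ p ≤ 2 * Q ∧ Bad κ p) →
      (B.card : ℝ) ≤ C * (Q : ℝ) ^ (1 / (2 * (κ - 1)) + ε) := by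
  have hk : 0 < κ - 1 := by linarith
  obtain ⟨η, δ, hη, hδ, hexp⟩ := exponents hκ hε
  obtain ⟨L0, hL0, hpar⟩ := params hκ hη
  obtain ⟨Cd, hCd, hdiv⟩ := Helper91.KC.card_divisors_bound δ hδ
  set θ := 1 / (2 * (κ - 1)) + ε with hθ
  have hθ0 : 0 < θ := by positivity
  refine ⟨max (16 * Cd) (Real.exp L0), by positivity, fun Q hQ B hB => ?_⟩
  have hQ1 : (1 : ℝ) ≤ Q := by exact_mod_cast hQ
  have hQθ : (1 : ℝ) ≤ (Q : ℝ) ^ θ := Real.one_le_rpow hQ1 hθ0.le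
  rcases lt_or_ge (Real.log Q) L0 with hL | hL
  · have h1 : B.card ≤ Q := by
      have h1 : B ⊆ Ioc Q (2 * Q) := fun p hp => mem_Ioc.2 ⟨(hB p hp).1, (hB p hp).2.1⟩
      have h2 := card_le_card h1
      rw [Nat.card_Ioc] at h2
      omega
    have h2 : (Q : ℝ) ≤ Real.exp L0 := by
      rw [← Real.exp_log (show (0 : ℝ) < Q by linarith)]
      exact Real.exp_le_exp.2 hL.le
    calc (B.card : ℝ) ≤ Q := by exact_mod_cast h1
      _ ≤ max (16 * Cd) (Real.exp L0) := h2.trans (le_max_right _ _)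
      _ ≤ max (16 * Cd) (Real.exp L0) * (Q : ℝ) ^ θ :=
        le_mul_of_one_le_right (by positivity) hQθ
  · obtain ⟨L, hLdef⟩ : ∃ L, L = Real.log Q := ⟨_, rfl⟩
    rw [← hLdef] at hL
    have hLpos : 0 < L := by linarith
    have hexpL : Real.exp L = Q := by rw [hLdef, Real.exp_log (by linarith)]
    obtain ⟨n, r, hr0, hr1, hr2, hr3, hr4⟩ := hpar L hL
    obtain ⟨Y, hY⟩ : ∃ Y, Y = ⌊L ^ κ⌋₊ := ⟨_, rfl⟩
    rw [← hY] at hr1
    obtain ⟨b, hb⟩ : ∃ b, b = κ * (1 + 2 * η) / (κ - 1) := ⟨_, rfl⟩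
    obtain ⟨a, ha⟩ : ∃ a, a = (1 + 2 * η) / (κ - 1) := ⟨_, rfl⟩
    rw [← hb] at hr4 hexp
    rw [← ha] at hr3 hexp
    have hb0 : 0 < b := by rw [hb]; positivity
    have hYL : (Y : ℝ) ≤ L ^ κ := by rw [hY]; exact Nat.floor_le (by positivity)
    have hYn : ((Y ^ n : ℕ) : ℝ) ≤ (L ^ κ) ^ n := by
      push_cast
      exact pow_le_pow_left₀ (by positivity) hYL n
    obtain ⟨T, hT⟩ : ∃ T, T = Cd * Real.exp (δ * (b * L)) := ⟨_, rfl⟩
    have hT1 : 1 ≤ T := by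
      rw [hT]
      have : 1 ≤ Real.exp (δ * (b * L)) := Real.one_le_exp (by positivity)
      nlinarith
    have ht1 : 1 ≤ ⌊T⌋₊ := by
      rw [Nat.one_le_floor_iff]; exact hT1
    have ht : ∀ m : ℕ, 0 < m → m ≤ Y ^ n → m.divisors.card ≤ ⌊T⌋₊ := by
      intro m hm hmY
      refine Nat.le_floor ((hdiv m hm).trans ?_)
      rw [hT]
      refine mul_le_mul_of_nonneg_left ?_ (by linarith)
      have h1 : (m : ℝ) ≤ Real.exp (b * L) := by
        have : (m : ℝ) ≤ ((Y ^ n : ℕ) : ℝ) := by exact_mod_cast hmY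
        exact (this.trans hYn).trans hr4
      calc (m : ℝ) ^ δ ≤ (Real.exp (b * L)) ^ δ := by
            exact Real.rpow_le_rpow (by positivity) h1 hδ.le
        _ = Real.exp (δ * (b * L)) := by rw [← Real.exp_mul]; ring_nf
    have hS : 4 * Q ≤ (Nat.primeCounting Y).choose n := by
      have : (4 : ℝ) * Q ≤ ((Nat.primeCounting Y).choose n : ℝ) := by
        rw [← hexpL]; exact hr2.trans hr1
      exact_mod_cast this
    have hbad : ∀ p ∈ B, Q < p ∧ p ≤ 2 * Q ∧ BadY Y p := by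
      intro p hp
      obtain ⟨h1, h2, h3⟩ := hB p hp
      refine ⟨h1, h2, fun c hc hcY => h3 c hc ?_⟩
      have h4 : (c : ℝ) ≤ Y := by exact_mod_cast hcY
      have h5 : L ≤ Real.log p := by
        rw [hLdef]
        exact Real.log_le_log (by linarith) (by exact_mod_cast h1.le)
      exact (h4.trans hYL).trans (Real.rpow_le_rpow hLpos.le h5 (by linarith))
    have hmain := block hQ ht1 hS ht B hbad
    have h1 : (B.card : ℝ) ^ 2 * ((Nat.primeCounting Y).choose n : ℝ) ≤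
        256 * (⌊T⌋₊ : ℝ) ^ 2 * ((Y ^ n : ℕ) : ℝ) := by exact_mod_cast hmain
    have hfl : (⌊T⌋₊ : ℝ) ≤ T := Nat.floor_le (by linarith)
    have hrn : 0 < r ^ n := by positivity
    have h2 : (B.card : ℝ) ^ 2 * r ^ n ≤ (256 * T ^ 2 * Real.exp (a * L)) * r ^ n := by
      calc (B.card : ℝ) ^ 2 * r ^ n ≤ (B.card : ℝ) ^ 2 * ((Nat.primeCounting Y).choose n : ℝ) := by
            gcongr
        _ ≤ 256 * (⌊T⌋₊ : ℝ) ^ 2 * ((Y ^ n : ℕ) : ℝ) := h1
        _ ≤ 256 * T ^ 2 * (Real.exp (a * L) * r ^ n) := by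
            gcongr
            exact hYn.trans hr3
        _ = _ := by ring
    have h3 : (B.card : ℝ) ^ 2 ≤ 256 * T ^ 2 * Real.exp (a * L) := le_of_mul_le_mul_right h2 hrn
    have h4 : (B.card : ℝ) ^ 2 ≤ (16 * T * Real.exp (a / 2 * L)) ^ 2 := by
      refine h3.trans (le_of_eq ?_)
      have : Real.exp (a * L) = Real.exp (a / 2 * L) ^ 2 := by
        rw [← Real.exp_nat_mul]; congr 1; push_cast; ring
      rw [this]; ring
    have h5 : (B.card : ℝ) ≤ 16 * T * Real.exp (a / 2 * L) :=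
      le_of_sq_le_sq h4 (by positivity)
    refine h5.trans ?_
    have h6 : 16 * T * Real.exp (a / 2 * L) = 16 * Cd * Real.exp ((δ * b + a / 2) * L) := by
      rw [hT, add_mul, Real.exp_add]; ring_nf
    rw [h6]
    have h7 : Real.exp ((δ * b + a / 2) * L) ≤ (Q : ℝ) ^ θ := by
      rw [← hexpL, ← Real.exp_mul, mul_comm L θ]
      exact Real.exp_le_exp.2 (mul_le_mul_of_nonneg_right hexp hLpos.le)
    exact mul_le_mul (le_max_left _ _) h7 (by positivity) (by positivity)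

theorem main {κ ε : ℝ} (hκ : 1 < κ) (hε : 0 < ε) : ∃ C : ℝ, ∀ x : ℝ, 1 ≤ x →
    (Nat.card {p : ℕ // p.Prime ∧ (p : ℝ) ≤ x ∧ Bad κ p} : ℝ) ≤
      C * x ^ (1 / (2 * (κ - 1)) + ε) := by
  classical
  have hk : 0 < κ - 1 := by linarith
  obtain ⟨C, hC, hd⟩ := dyadic hκ (half_pos hε)
  refine ⟨C * (1 / (ε / 2 * Real.log 2) + 1), fun x hx => ?_⟩
  have hx0 : 0 < x := by linarith
  set J := Nat.log 2 ⌊x⌋₊ with hJ
  set P := (Icc 1 ⌊x⌋₊).filter fun p => p.Prime ∧ Bad κ p with hP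
  have hfx : 1 ≤ ⌊x⌋₊ := by rw [Nat.one_le_floor_iff]; exact hx
  have hcard : Nat.card {p : ℕ // p.Prime ∧ (p : ℝ) ≤ x ∧ Bad κ p} = P.card := by
    refine Nat.subtype_card P fun p => ?_
    rw [hP, mem_filter, mem_Icc]
    constructor
    · rintro ⟨⟨_, h2⟩, h3, h4⟩
      exact ⟨h3, (Nat.le_floor_iff hx0.le).1 h2, h4⟩
    · rintro ⟨h1, h2, h3⟩
      exact ⟨⟨h1.pos, (Nat.le_floor_iff hx0.le).2 h2⟩, h1, h3⟩
  rw [hcard]
  have hJx : ((2 : ℝ) ^ J) ≤ x := by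
    have h1 : 2 ^ J ≤ ⌊x⌋₊ := Nat.pow_log_le_self 2 (by omega)
    have h2 : ((2 ^ J : ℕ) : ℝ) ≤ ⌊x⌋₊ := by exact_mod_cast h1
    push_cast at h2
    exact h2.trans (Nat.floor_le hx0.le)
  have hθ0 : 0 < 1 / (2 * (κ - 1)) + ε / 2 := by positivity
  have hsub : P ⊆ (range (J + 1)).biUnion fun j => P.filter fun p => 2 ^ j < p ∧ p ≤ 2 * 2 ^ j := by
    intro p hp
    have hp' := hp
    rw [hP, mem_filter, mem_Icc] at hp'
    obtain ⟨⟨h1, h2⟩, h3, h4⟩ := hp'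
    have hp2 := h3.two_le
    rw [mem_biUnion]
    refine ⟨Nat.log 2 (p - 1), ?_, ?_⟩
    · rw [mem_range, hJ, Nat.lt_succ_iff]
      exact Nat.log_mono_right (by omega)
    · rw [mem_filter]
      have h5 : 2 ^ Nat.log 2 (p - 1) ≤ p - 1 := Nat.pow_log_le_self 2 (by omega)
      have h6 : p - 1 < 2 ^ (Nat.log 2 (p - 1) + 1) := Nat.lt_pow_succ_log_self (by norm_num) _
      rw [pow_succ] at h6
      exact ⟨hp, by omega, by omega⟩
  have hblocks : ∀ j ∈ range (J + 1),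
      ((P.filter fun p => 2 ^ j < p ∧ p ≤ 2 * 2 ^ j).card : ℝ) ≤
        C * x ^ (1 / (2 * (κ - 1)) + ε / 2) := by
    intro j hj
    rw [mem_range] at hj
    refine (hd (2 ^ j) (by positivity) _ ?_).trans ?_
    · intro p hp
      rw [mem_filter, hP, mem_filter] at hp
      exact ⟨hp.2.1, hp.2.2, hp.1.2.2⟩
    · refine mul_le_mul_of_nonneg_left (Real.rpow_le_rpow (by positivity) ?_ hθ0.le) hC.le
      push_cast
      exact (pow_le_pow_right₀ (by norm_num) (by omega)).trans hJx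
  have h1 : (P.card : ℝ) ≤ (J + 1) * (C * x ^ (1 / (2 * (κ - 1)) + ε / 2)) := by
    have h2 : (P.card : ℝ) ≤ ∑ j ∈ range (J + 1),
        ((P.filter fun p => 2 ^ j < p ∧ p ≤ 2 * 2 ^ j).card : ℝ) := by
      have := (card_le_card hsub).trans card_biUnion_le
      exact_mod_cast this
    refine h2.trans ((sum_le_sum hblocks).trans (le_of_eq ?_))
    rw [sum_const, card_range, nsmul_eq_mul]
    push_cast
    ring
  have hl2 : 0 < Real.log 2 := Real.log_pos (by norm_num)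
  have h2 : (J : ℝ) ≤ 1 / (ε / 2 * Real.log 2) * x ^ (ε / 2) := by
    have h3 : (J : ℝ) * Real.log 2 ≤ Real.log x := by
      rw [← Real.log_pow]
      exact Real.log_le_log (by positivity) hJx
    have h4 := Real.log_le_rpow_div hx0.le (half_pos hε)
    have h5 : (J : ℝ) * Real.log 2 ≤ x ^ (ε / 2) / (ε / 2) := h3.trans h4
    have h6 : (J : ℝ) ≤ x ^ (ε / 2) / (ε / 2) / Real.log 2 := by rwa [le_div_iff₀ hl2]
    refine h6.trans (le_of_eq ?_)
    field_simp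
  have h3 : (1 : ℝ) ≤ x ^ (ε / 2) := Real.one_le_rpow hx (by positivity)
  have h4 : (J : ℝ) + 1 ≤ (1 / (ε / 2 * Real.log 2) + 1) * x ^ (ε / 2) := by
    rw [add_mul, one_mul]
    linarith
  have h5 : x ^ (ε / 2) * x ^ (1 / (2 * (κ - 1)) + ε / 2) = x ^ (1 / (2 * (κ - 1)) + ε) := by
    rw [← Real.rpow_add hx0]
    congr 1
    ring
  calc (P.card : ℝ) ≤ (J + 1) * (C * x ^ (1 / (2 * (κ - 1)) + ε / 2)) := h1
    _ ≤ ((1 / (ε / 2 * Real.log 2) + 1) * x ^ (ε / 2)) *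
        (C * x ^ (1 / (2 * (κ - 1)) + ε / 2)) := by gcongr
    _ = C * (1 / (ε / 2 * Real.log 2) + 1) *
        (x ^ (ε / 2) * x ^ (1 / (2 * (κ - 1)) + ε / 2)) := by ring
    _ = _ := by rw [h5]

end Pool.Agent.Helper25.FQ
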